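import Pool.Agent.helper90.KS.Spec

set_option autoImplicit false

namespace Pool.Agent.KS

open Pool.Agent.helper23.TH

open Classical

theorem FIN_exp (s : ℕ) (hs : 3 ≤ s) :
    2 * (((spider s).v : ℕ) : ℝ) / (((spider s).e : ℕ) : ℝ) = 1 + 1 / (s : ℝ) := by
  have h3 : (((spider s).v : ℕ) : ℝ) = (s : ℝ) + 1 := by
    show ((s + 1 : ℕ) : ℝ) = (s : ℝ) + 1
    push_cast; ring
  have h4 : (((spider s).e : ℕ) : ℝ) = 2 * (s : ℝ) := by
    show ((s + s : ℕ) : ℝ) = 2 * (s : ℝ)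
    push_cast; ring
  have h5 : (s : ℝ) ≠ 0 := by
    have : (0 : ℝ) < s := by exact_mod_cast (by omega : 0 < s)
    exact this.ne'
  rw [h3, h4]
  field_simp

theorem FIN (hLBK : LBK_stmt) (hSP : SP_stmt) (hUB : UB_stmt) (hM : MONO_stmt)
    (hI : ISO_stmt) : FIN_stmt := by
  intro s hs
  obtain ⟨hb, hc⟩ := hSP s (by omega)
  have hv : 1 ≤ (spider s).v := by show 1 ≤ s + 1; omega
  have he : 1 ≤ (spider s).e := by show 1 ≤ s + s; omega
  have h2 : (spider s).e ≤ 2 * (spider s).v := by show s + s ≤ 2 * (s + 1); omega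
  obtain ⟨p₀, C, hC, N, hU⟩ := hUB (spider s) hb hv he h2
  have hlaw : ∀ p : ℕ, max p₀ 2 ≤ p → Law ((spider s).pw p) (1 + 1 / (s : ℝ)) := by
    intro p hp
    obtain ⟨c, hc0, N', h'⟩ := hLBK s p hs ((le_max_right _ _).trans hp)
    refine ⟨c, C, hc0, hC, max N N', fun n hn => ⟨?_, fun m χ h1 h3 => ?_⟩⟩
    · obtain ⟨m, hm, χ, h1, h3⟩ := hU n ((le_max_left _ _).trans hn)
      rw [FIN_exp s hs] at hm
      exact ⟨m, hm, χ, h1, fun h4 => h3 (hM (spider s) p₀ p ((le_max_left _ _).trans hp) _ _ χ h4)⟩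
    · exact h' n ((le_max_right _ _).trans hn) m χ h1 h3
  refine ⟨hc, ⟨max p₀ 2, hlaw⟩, ?_⟩
  exact hI _ ((spider s).pw (max p₀ 2)) _ (hc _) (hlaw _ le_rfl)

end Pool.Agent.KS
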